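import Pool.Agent.R830.CP.Main
import Pool.Agent.R830.CP.Univ

/-!
# The unit group of the universal CP monoid is generated by the images of the symmetric groups

Definitions (in `Pool.Agent.R830.CP.Basic`):

* `CPStr M d`: a `d`-CP structure `(Φ, τ₁, …, τ_d)` on the monoid `M`: `Φ : M^d → M` is a bijection
  and `τ_i Φ(m) = m_i`; `CPStr.triv M` is `(id, 1)`;
* `CPStr.combine Ψ d X`: the combination of an `s`-CP structure `Ψ` with `d i`-CP structures `X i`;
* `CPStr.perm X σ = Φ (τ_{σ⁻¹(1)}, …, τ_{σ⁻¹(d)})`;
* `CPMonoid`: a monoid with a 2-CP structure; `CPHom`: their homomorphisms;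
* `IsUniversal U`: `U` is an initial object of the category of CP monoids;
* `InS X`: the CP structure `X` belongs to the set `𝕊(U)`, i.e. it is obtained from
  `(Σ, π₁, π₂)` and `(id, 1)` by finitely many combinations.

The theorem: a universal CP monoid exists, and for every universal CP monoid `U` the group of units
of `U` is generated by the units `CPStr.perm X σ`, for `X ∈ 𝕊(U)` a `d`-CP structure with
`d ≥ 2` and `σ` a permutation of `Fin d`.

(`U` is the free Cartesian monoid and its group of units is Thompson's group `V`.  The proof is
direct: a unit maps the leaves of a finite binary tree to words; two words of the form `v0`, `v1`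
with `v0` or `v1` of maximal length occur, and a permutation of the leaves moves them to a caret
of the tree, which can then be removed.)
-/

open Pool.Agent.R830.CP

universe u

namespace Pool.Agent.Results.MP_6189ff_al.SymmetricGeneration

theorem result :
    (∃ (U : Type u) (_ : CPMonoid U), IsUniversal U) ∧
    ∀ (U : Type u) [CPMonoid U], IsUniversal U →
      Subgroup.closure {g : Uˣ | ∃ (d : ℕ) (X : CPStr U d) (σ : Equiv.Perm (Fin d)),
        2 ≤ d ∧ InS X ∧ (g : U) = X.perm σ} = ⊤ :=
  ⟨⟨UU.{u}, inferInstance, exists_universal⟩, fun U _ hU => main U hU⟩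

end Pool.Agent.Results.MP_6189ff_al.SymmetricGeneration
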